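import Pool.Agent.Run7.h230.QF.Stm

/-!
# Project QF, piece DISP
-/

set_option autoImplicit false

namespace Pool.Agent.Run7.h744.QF

open Pool.Agent.Run7.h230.QF
open Pool.Agent.H97R3.VR (IsMedian IsConvex Btw)
open Pool.Agent.TH97.VR (walls)
open Pointwise

variable {V : Type} {k : ℕ} {Γ : SimpleGraph V}

/-- the half-spaces of the direction `i` from `t` on -/
def WT (Γ : SimpleGraph V) (f : (Fin k → ℤ) → V) (i : Fin k) (t : ℤ) : Set (Set V) :=
  {A | ∃ j : ℤ, t ≤ j ∧ A = HS Γ f i j}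

lemma WT_sub (f : (Fin k → ℤ) → V) (i : Fin k) {t : ℤ} (ht : 0 ≤ t) :
    WT Γ f i t \ WP Γ f i = ∅ := by
  ext A
  simp only [Set.mem_sdiff, Set.mem_empty_iff_false, iff_false, not_and, not_not]
  rintro ⟨j, hj, rfl⟩
  exact ⟨j, by omega, rfl⟩

lemma WP_diff {f : (Fin k → ℤ) → V} (hf : IsFlat Γ f) (i : Fin k) (t : ℤ) :
    WP Γ f i \ WT Γ f i t = (fun j : ℤ => HS Γ f i j) '' (Finset.Ico 0 t : Finset ℤ) := by
  ext A
  constructor
  · rintro ⟨⟨j, hj, rfl⟩, h⟩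
    refine ⟨j, ?_, rfl⟩
    rw [Finset.coe_Ico, Set.mem_Ico]
    refine ⟨hj, ?_⟩
    by_contra hcon
    exact h ⟨j, by omega, rfl⟩
  · rintro ⟨j, hj, rfl⟩
    rw [Finset.coe_Ico, Set.mem_Ico] at hj
    refine ⟨⟨j, hj.1, rfl⟩, ?_⟩
    rintro ⟨j', h', e⟩
    have := (hf.HS_inj e).2
    omega

lemma WP_card {f : (Fin k → ℤ) → V} (hf : IsFlat Γ f) (i : Fin k) {t : ℤ} (ht : 0 ≤ t) :
    (WP Γ f i \ WT Γ f i t).Finite ∧ ((WP Γ f i \ WT Γ f i t).ncard : ℤ) = t := by
  rw [WP_diff hf]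
  refine ⟨(Finset.finite_toSet _).image _, ?_⟩
  rw [Set.ncard_image_of_injective _ (fun a b h => (hf.HS_inj h).2), Set.ncard_coe_finset,
    Int.card_Ico]
  omega

lemma ind_smul {S G : Type} [Group G] [MulAction G S] (g : G) (X Y : Set S) :
    ind (g • X) (g • Y) = ind X Y := by
  unfold ind
  rw [← Set.smul_set_sdiff, ← Set.smul_set_sdiff, Set.ncard_smul_set, Set.ncard_smul_set]

lemma Cm_smul {S G : Type} [Group G] [MulAction G S] (g : G) {X Y : Set S} (h : Cm X Y) :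
    Cm (g • X) (g • Y) := by
  unfold Cm
  rw [← Set.smul_set_sdiff, ← Set.smul_set_sdiff]
  exact ⟨h.1.smul_set, h.2.smul_set⟩

lemma ind_comm {S : Type} (X Y : Set S) : ind X Y = - ind Y X := by
  unfold ind
  ring

lemma mem_smul_flat {G : Type} [Group G] [MulAction G V] (g : G) (v : V) (A : Set V) :
    g • v ∈ g • A ↔ v ∈ A := Set.smul_mem_smul_set_iff

theorem t_DISP (hGR : S_GR) (hIDX : S_IDX) : S_DISP := by
  classical
  intro V G _ _ Γ hA k N hN f hf i g hFx htau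
  have hΓ := hA.med
  obtain ⟨hCm, hfix⟩ := hFx
  set h : (Fin k → ℤ) → V := fun z => g • f z with hh
  have hhf : IsFlat Γ h := hf.smul hA g
  have hHS : ∀ (i' : Fin k) (j : ℤ), HS Γ h i' j = g • HS Γ f i' j := fun i' j =>
    IsFlat.HS_smul hA f g i' j
  have injf : Function.Injective (fun j : ℤ => HS Γ f i j) := fun a b e => (hf.HS_inj e).2
  have injh : Function.Injective (fun j : ℤ => g • HS Γ f i j) := fun a b e =>
    injf (MulAction.injective g e)
  -- the bound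
  obtain ⟨t₁, ht₁⟩ : BddAbove {j : ℤ | 0 ≤ j ∧ HS Γ f i j ∉ g • WP Γ f i} := by
    apply Set.Finite.bddAbove
    refine (hCm.1.preimage (f := fun j : ℤ => HS Γ f i j) injf.injOn).subset ?_
    rintro j ⟨h1, h2⟩
    exact ⟨⟨j, h1, rfl⟩, h2⟩
  obtain ⟨t₂, ht₂⟩ : BddAbove {j : ℤ | 0 ≤ j ∧ g • HS Γ f i j ∉ WP Γ f i} := by
    apply Set.Finite.bddAbove
    refine (hCm.2.preimage (f := fun j : ℤ => g • HS Γ f i j) injh.injOn).subset ?_
    rintro j ⟨h1, h2⟩
    exact ⟨Set.smul_mem_smul_set ⟨j, h1, rfl⟩, h2⟩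
  refine ⟨max 0 (max (t₁ + 1) (t₂ + 1)), fun t ht => ?_⟩
  have ht0 : 0 ≤ t := (le_max_left _ _).trans ht
  have hin1 : ∀ j, t ≤ j → ∃ j', 0 ≤ j' ∧ HS Γ f i j = g • HS Γ f i j' := by
    intro j hj
    by_contra hcon
    have h1 : j ∈ {j : ℤ | 0 ≤ j ∧ HS Γ f i j ∉ g • WP Γ f i} := by
      refine ⟨by omega, ?_⟩
      rintro ⟨A, ⟨j', hj', rfl⟩, e⟩
      exact hcon ⟨j', hj', e.symm⟩
    have := ht₁ h1
    omega
  have hin2 : ∀ j, t ≤ j → ∃ j', 0 ≤ j' ∧ g • HS Γ f i j = HS Γ f i j' := by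
    intro j hj
    by_contra hcon
    have h1 : j ∈ {j : ℤ | 0 ≤ j ∧ g • HS Γ f i j ∉ WP Γ f i} := by
      refine ⟨by omega, ?_⟩
      rintro ⟨j', hj', e⟩
      exact hcon ⟨j', hj', e⟩
    have := ht₂ h1
    omega
  set x := g • f (Pi.single i t) with hx
  set y := f (Pi.single i t) with hy
  have hxh : h (Pi.single i t) = x := rfl
  -- sides
  have yf : ∀ j, y ∈ HS Γ f i j ↔ j < t := fun j => by
    rw [hy, hf.side]; simp
  have xf : ∀ j, x ∈ g • HS Γ f i j ↔ j < t := fun j => by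
    rw [hx, Set.smul_mem_smul_set_iff, yf]
  have sf : ∀ s j, f (Pi.single i s) ∈ HS Γ f i j ↔ j < s := fun s j => by
    rw [hf.side]; simp
  have sg : ∀ s j, g • f (Pi.single i s) ∈ g • HS Γ f i j ↔ j < s := fun s j => by
    rw [Set.smul_mem_smul_set_iff, sf]
  have yo : ∀ i', i' ≠ i → ∀ j, 0 ≤ j → y ∉ HS Γ f i' j := fun i' hi' j hj hc => by
    rw [hy, hf.side, Pi.single_eq_of_ne hi'] at hc
    omega
  have xo : ∀ i', i' ≠ i → ∀ j, 0 ≤ j → x ∉ g • HS Γ f i' j := fun i' hi' j hj hc => by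
    rw [hx, Set.smul_mem_smul_set_iff] at hc
    exact yo i' hi' j hj hc
  set B₁ : Set (Set V) := WT Γ f i t \ (g • WT Γ f i t) with hB₁
  set B₂ : Set (Set V) := (g • WT Γ f i t) \ WT Γ f i t with hB₂
  -- the index
  have cm1 : Cm (WT Γ f i t) (WP Γ f i) := by
    refine ⟨by rw [WT_sub f i ht0]; exact Set.finite_empty, (WP_card hf i ht0).1⟩
  have in1 : ind (WT Γ f i t) (WP Γ f i) = -t := by
    unfold ind
    rw [WT_sub f i ht0, Set.ncard_empty, (WP_card hf i ht0).2]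
    simp
  have cm1' : Cm (WP Γ f i) (WT Γ f i t) := ⟨cm1.2, cm1.1⟩
  have in1' : ind (WP Γ f i) (WT Γ f i t) = t := by rw [ind_comm, in1, neg_neg]
  obtain ⟨cm2, in2⟩ := hIDX _ _ _ _ cm1 hCm
  obtain ⟨cm3, in3⟩ := hIDX _ _ _ _ cm2 (Cm_smul g cm1')
  have hind : ind (WT Γ f i t) (g • WT Γ f i t) = 0 := by
    have h0 : ind (WP Γ f i) (g • WP Γ f i) = 0 := htau
    rw [in3, in2, in1, h0, ind_smul, in1']
    ring
  have hcard : B₁.ncard = B₂.ncard := by
    unfold ind at hind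
    rw [← hB₁, ← hB₂] at hind
    omega
  have fin1 : B₁.Finite := cm3.1
  have fin2 : B₂.Finite := cm3.2
  -- members
  have mem1 : ∀ A ∈ B₁, ∃ j j', t ≤ j ∧ 0 ≤ j' ∧ j' < t ∧ A = HS Γ f i j ∧ A = g • HS Γ f i j' := by
    rintro A ⟨⟨j, hj, rfl⟩, h2⟩
    obtain ⟨j', hj', e⟩ := hin1 j hj
    refine ⟨j, j', hj, hj', ?_, rfl, e⟩
    by_contra hcon
    exact h2 ⟨HS Γ f i j', ⟨j', by omega, rfl⟩, e.symm⟩
  have mem2 : ∀ A ∈ B₂, ∃ j j', 0 ≤ j ∧ j < t ∧ t ≤ j' ∧ A = HS Γ f i j ∧ A = g • HS Γ f i j' := by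
    rintro A ⟨⟨_, ⟨j', hj', rfl⟩, rfl⟩, h2⟩
    obtain ⟨j, hj, e⟩ := hin2 j' hj'
    refine ⟨j, j', hj, ?_, hj', e, rfl⟩
    by_contra hcon
    exact h2 ⟨j, by omega, e⟩
  -- `B₁` and `B₂` are small
  have small : B₁.ncard < N ∧ B₂.ncard < N := by
    have key := hGR V Γ hΓ k N hN f hf i fin1.toFinset fin2.toFinset
      ⟨y, x, fun A hAm => by
        obtain ⟨j, j', h1, h2, h3, h4, h5⟩ := mem1 A ((fin1.mem_toFinset).1 hAm)
        refine ⟨by rw [h4]; exact hf.wall i j, ?_, ?_⟩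
        · rw [h4, yf]; omega
        · rw [h5, xf]; exact h3⟩
      (fun B hBm => by
        obtain ⟨j, j', h1, h2, h3, h4, h5⟩ := mem2 B ((fin2.mem_toFinset).1 hBm)
        exact ⟨j, h4⟩)
      (fun A hAm B hBm => by
        obtain ⟨j, j', h1, h2, h3, h4, h5⟩ := mem1 A ((fin1.mem_toFinset).1 hAm)
        obtain ⟨l, l', m1, m2, m3, m4, m5⟩ := mem2 B ((fin2.mem_toFinset).1 hBm)
        refine ⟨⟨f (Pi.single i (j + 1)), ?_, ?_⟩, ⟨x, ?_, ?_⟩, ⟨y, ?_, ?_⟩,
          ⟨f (Pi.single i 0), ?_, ?_⟩⟩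
        · rw [h4, sf]; omega
        · rw [m4, sf]; omega
        · rw [h5, xf]; exact h3
        · rw [m5, Set.mem_compl_iff, xf]; omega
        · rw [h4, Set.mem_compl_iff, yf]; omega
        · rw [m4, yf]; omega
        · rw [h4, Set.mem_compl_iff, sf]; omega
        · rw [m4, Set.mem_compl_iff, sf]; omega)
      (fun A hAm i' hi' l _ _ => by
        obtain ⟨j, j', h1, h2, h3, h4, h5⟩ := mem1 A ((fin1.mem_toFinset).1 hAm)
        rw [h4]
        exact hf.cross (Ne.symm hi') j l)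
    rw [← Set.ncard_eq_toFinset_card _ fin1, ← Set.ncard_eq_toFinset_card _ fin2] at key
    omega
  -- the remaining half-spaces
  obtain ⟨sfin, scard⟩ := Pool.Agent.TH97.VR.walls_sep hΓ x y
  set S : Set (Set V) := {A | A ∈ walls Γ ∧ x ∈ A ∧ y ∉ A ∧
    (∀ s, t ≤ s → f (Pi.single i s) ∉ A) ∧ ∀ s, t ≤ s → g • f (Pi.single i s) ∈ A} with hS
  have finS : S.Finite := sfin.subset fun A hAm => ⟨hAm.1, hAm.2.1, hAm.2.2.1⟩
  have smallS : S.ncard < N := by
    -- infinitely many common half-spaces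
    have hinf : (WT Γ f i t ∩ g • WT Γ f i t).Infinite := by
      intro hfin
      have h1 : (WT Γ f i t).Finite := by
        refine (hfin.union fin1).subset fun A hAm => ?_
        by_cases h2 : A ∈ g • WT Γ f i t
        · exact Or.inl ⟨hAm, h2⟩
        · exact Or.inr ⟨hAm, h2⟩
      have h2 : (Set.Ici t).Finite := by
        refine (h1.preimage (f := fun j : ℤ => HS Γ f i j) injf.injOn).subset ?_
        intro j hj
        exact ⟨j, hj, rfl⟩
      exact Set.Ici_infinite t h2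
    obtain ⟨T, hT1, hT2⟩ := hinf.exists_subset_card_eq N
    have key := hGR V Γ hΓ k N hN f hf i finS.toFinset T
      ⟨y, x, fun A hAm => by
        have h1 := (finS.mem_toFinset).1 hAm
        exact ⟨h1.1, h1.2.2.1, h1.2.1⟩⟩
      (fun B hBm => by
        obtain ⟨⟨j, hj, e⟩, _⟩ := hT1 hBm
        exact ⟨j, e⟩)
      (fun A hAm B hBm => by
        obtain ⟨h1, h2, h3, h4, h5⟩ := (finS.mem_toFinset).1 hAm
        obtain ⟨⟨j, hj, e⟩, ⟨_, ⟨j', hj', rfl⟩, e'⟩⟩ := hT1 hBm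
        change g • HS Γ f i j' = B at e'
        refine ⟨⟨g • f (Pi.single i (j' + 1)), ?_, ?_⟩, ⟨x, h2, ?_⟩,
          ⟨f (Pi.single i (j + 1)), ?_, ?_⟩, ⟨y, h3, ?_⟩⟩
        · exact h5 _ (by omega)
        · rw [← e', sg]; omega
        · rw [← e', Set.mem_compl_iff, xf]; omega
        · exact h4 _ (by omega)
        · rw [e, sf]; omega
        · rw [e, Set.mem_compl_iff, yf]; omega)
      (fun A hAm i' hi' l hl hl' => by
        obtain ⟨h1, h2, h3, h4, h5⟩ := (finS.mem_toFinset).1 hAm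
        have hD := hfix i' hi' l hl hl'
        set w : Fin k → ℤ := Pi.single i t + Pi.single i' (l + 1) with hw
        have wi' : w i' = l + 1 := by simp [hw, Pi.single_eq_of_ne hi']
        have wi : w i = t := by simp [hw, Pi.single_eq_of_ne (Ne.symm hi')]
        have wo : ∀ b, b ≠ i' → w b = (Pi.single i t : Fin k → ℤ) b := fun b hb => by
          simp [hw, Pi.single_eq_of_ne hb]
        have s1 : f w ∈ HS Γ f i' l := (hf.side _ _ _).2 (by omega)
        have s2 : g • f w ∈ HS Γ f i' l := by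
          rw [← hD, Set.smul_mem_smul_set_iff]; exact s1
        have s3 : f w ∉ A := by
          intro hc
          obtain ⟨i₁, j₁, hor⟩ := hf.sep hΓ h1 (z := Pi.single i t) (w := w) h3 hc
          by_cases hb : i₁ = i'
          · subst hb
            rw [wi', Pi.single_eq_of_ne hi'] at hor
            rcases hor with ⟨e, h6, h7⟩ | ⟨e, h6, h7⟩
            · have e2 := hfix i₁ hi' j₁ h6 (by omega)
              rw [e, ← e2] at h2
              exact xo i₁ hi' j₁ h6 h2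
            · omega
          · rw [wo _ hb] at hor
            rcases hor with ⟨e, h6, h7⟩ | ⟨e, h6, h7⟩ <;> omega
        have s4 : g • f w ∈ A := by
          by_contra hc
          obtain ⟨i₁, j₁, hor⟩ := hhf.sep hΓ h1 (z := w) (w := Pi.single i t) hc h2
          by_cases hb : i₁ = i'
          · subst hb
            rw [wi', Pi.single_eq_of_ne hi'] at hor
            rcases hor with ⟨e, h6, h7⟩ | ⟨e, h6, h7⟩
            · omega
            · have e2 := hfix i₁ hi' j₁ h6 (by omega)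
              rw [e, hHS, e2] at h3
              exact yo i₁ hi' j₁ h6 (not_not.1 h3)
          · rw [wo _ hb] at hor
            rcases hor with ⟨e, h6, h7⟩ | ⟨e, h6, h7⟩ <;> omega
        refine ⟨⟨g • f w, s4, s2⟩, ⟨x, h2, ?_⟩, ⟨f w, s3, s1⟩, ⟨y, h3, ?_⟩⟩
        · rw [← hD]; exact xo i' hi' l hl
        · exact yo i' hi' l hl)
    rw [← Set.ncard_eq_toFinset_card _ finS, hT2] at key
    omega
  -- the count
  have hsub : {W | W ∈ walls Γ ∧ x ∈ W ∧ y ∉ W} ⊆ B₁ ∪ ((fun A => Aᶜ) '' B₂) ∪ S := by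
    rintro A ⟨h1, h2, h3⟩
    by_cases c1 : ∃ s, t ≤ s ∧ f (Pi.single i s) ∈ A
    · obtain ⟨s, hs, hsA⟩ := c1
      left; left
      obtain ⟨i₁, j₁, hor⟩ := hf.sep hΓ h1 (z := Pi.single i t) (w := Pi.single i s) h3 hsA
      by_cases hb : i₁ = i
      · subst hb
        simp only [Pi.single_eq_same] at hor
        rcases hor with ⟨e, h6, h7⟩ | ⟨e, h6, h7⟩
        · refine ⟨⟨j₁, h6, e⟩, ?_⟩
          rintro ⟨_, ⟨j', hj', rfl⟩, e'⟩
          change g • HS Γ f i₁ j' = A at e'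
          rw [← e', xf] at h2
          omega
        · omega
      · simp only [Pi.single_eq_of_ne hb] at hor
        rcases hor with ⟨e, h6, h7⟩ | ⟨e, h6, h7⟩ <;> omega
    · by_cases c2 : ∃ s, t ≤ s ∧ g • f (Pi.single i s) ∉ A
      · obtain ⟨s, hs, hsA⟩ := c2
        left; right
        obtain ⟨i₁, j₁, hor⟩ := hhf.sep hΓ h1 (z := Pi.single i s) (w := Pi.single i t) hsA h2
        by_cases hb : i₁ = i
        · subst hb
          simp only [Pi.single_eq_same] at hor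
          rcases hor with ⟨e, h6, h7⟩ | ⟨e, h6, h7⟩
          · omega
          · refine ⟨Aᶜ, ⟨?_, ?_⟩, compl_compl A⟩
            · refine ⟨HS Γ f i₁ j₁, ⟨j₁, h6, rfl⟩, ?_⟩
              change g • HS Γ f i₁ j₁ = Aᶜ
              rw [e, compl_compl, hHS]
            · rintro ⟨j', hj', e'⟩
              have h8 : y ∈ Aᶜ := h3
              rw [e', yf] at h8
              omega
        · simp only [Pi.single_eq_of_ne hb] at hor
          rcases hor with ⟨e, h6, h7⟩ | ⟨e, h6, h7⟩ <;> omega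
      · right
        push Not at c1 c2
        exact ⟨h1, h2, h3, c1, c2⟩
  rw [← scard]
  have f3 : ((fun A : Set V => Aᶜ) '' B₂).Finite := fin2.image _
  calc {W | W ∈ walls Γ ∧ x ∈ W ∧ y ∉ W}.ncard
      ≤ (B₁ ∪ ((fun A => Aᶜ) '' B₂) ∪ S).ncard :=
        Set.ncard_le_ncard hsub ((fin1.union f3).union finS)
    _ ≤ (B₁ ∪ ((fun A => Aᶜ) '' B₂)).ncard + S.ncard := Set.ncard_union_le _ _
    _ ≤ B₁.ncard + ((fun A => Aᶜ) '' B₂).ncard + S.ncard :=
        Nat.add_le_add_right (Set.ncard_union_le _ _) _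
    _ ≤ B₁.ncard + B₂.ncard + S.ncard :=
        Nat.add_le_add_right (Nat.add_le_add_left (Set.ncard_image_le fin2) _) _
    _ ≤ 3 * N := by omega

end Pool.Agent.Run7.h744.QF
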