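import Pool.Agent.Run7.h230.QF.Stm2

/-!
# Project QF (helper230), phase 2, piece SLB
-/

set_option autoImplicit false

namespace Pool.Agent.Run7.h744.QF

open Pool.Agent.Run7.h230.QF
open Pool.Agent.H97R3.VR (IsMedian IsConvex Btw)
open Pool.Agent.TH97.VR (walls)
open Pointwise

variable {V : Type} {k : ℕ} {Γ : SimpleGraph V}

theorem t_SLB : S_SLB := by
  intro V G _ _ Γ hA k L hL i n₀ n hF hn T hT p q M hM hg h₁ h₂ hh
  -- the translations
  have hx : ∀ x : Fin k → ℤ, ∃ t : G, x i = 0 → ∀ z : Fin k → ℤ,
      (∀ i', i' ≠ i → |z i'| ≤ (n : ℤ)) → -(p : ℤ) - M ≤ z i → z i ≤ -(p : ℤ) →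
        t • h₁ (z + x) = h₁ (z + x - Pi.single i (q : ℤ)) := by
    intro x
    by_cases hxi : x i = 0
    · have hHP : HP L i (fun z => h₁ (z + x)) (fun z => h₂ (z + x)) := by
        refine ⟨hL.shift _ hh.1 x, hL.shift _ hh.2.1 x, fun z => ?_⟩
        rw [hh.2.2 (z + x), Pi.add_apply, hxi, add_zero]
      obtain ⟨τ, hτ, g', hg'⟩ := hT.2 _ _ hHP
      obtain ⟨g, hgτ⟩ := hg τ hτ
      refine ⟨g' * g * g'⁻¹, fun _ z hz1 hz2 hz3 => ?_⟩
      have hzW : z ∈ Wi i n := ⟨hz1, by omega⟩
      have e1 := hg' z hzW
      simp only at e1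
      have hzW' : z - Pi.single i (q : ℤ) ∈ Wi i n := by
        refine ⟨fun i' hi' => ?_, ?_⟩
        · rw [Pi.sub_apply, Pi.single_eq_of_ne hi', sub_zero]
          exact hz1 i' hi'
        · rw [Pi.sub_apply, Pi.single_eq_same]
          omega
      have e2 := hg' _ hzW'
      simp only at e2
      rw [mul_smul, mul_smul, ← e1, inv_smul_smul, hgτ z hz1 hz2 hz3, e2]
      congr 1
      abel
    · exact ⟨1, fun h => absurd h hxi⟩
  choose t ht using hx
  -- neighbours
  have hnb : ∀ x x' : Fin k → ℤ, x i = 0 → x' i = 0 → (∀ i', |x i' - x' i'| ≤ 1) →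
      ∀ z, t x' • h₁ z = t x • h₁ z := by
    intro x x' hxi hx'i hd
    set c : Fin k → ℤ := x - Pi.single i ((p : ℤ) + n₀) with hc
    have hcL : (fun z => h₁ (z + c)) ∈ L := hL.shift _ hh.1 c
    have hfix : ∀ z : Fin k → ℤ, (∀ i, |z i| ≤ (n₀ : ℤ)) →
        ((t x)⁻¹ * t x') • (fun z => h₁ (z + c)) z = (fun z => h₁ (z + c)) z := by
      intro w hw
      simp only
      have hci : c i = -((p : ℤ) + n₀) := by
        rw [hc, Pi.sub_apply, Pi.single_eq_same, hxi]
        ring
      have hci' : ∀ i', i' ≠ i → c i' = x i' := by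
        intro i' hi'
        rw [hc, Pi.sub_apply, Pi.single_eq_of_ne hi', sub_zero]
      have hM' : (2 * n₀ : ℤ) ≤ M := by exact_mod_cast hM
      have hn' : ((n₀ : ℤ) + 1) ≤ n := by exact_mod_cast hn
      have a1 := ht x hxi (w + c - x) (by
        intro i' hi'
        have h1 := hw i'
        have h2 : (w + c - x) i' = w i' := by
          simp only [Pi.sub_apply, Pi.add_apply, hci' i' hi']
          ring
        rw [h2]
        omega) (by
        have h1 := abs_le.1 (hw i)
        simp only [Pi.sub_apply, Pi.add_apply, hci, hxi]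
        omega) (by
        have h1 := abs_le.1 (hw i)
        simp only [Pi.sub_apply, Pi.add_apply, hci, hxi]
        omega)
      have a2 := ht x' hx'i (w + c - x') (by
        intro i' hi'
        have h1 := abs_le.1 (hw i')
        have h3 := abs_le.1 (hd i')
        have h2 : (w + c - x') i' = w i' + (x i' - x' i') := by
          simp only [Pi.sub_apply, Pi.add_apply, hci' i' hi']
          ring
        rw [h2, abs_le]
        constructor <;> omega) (by
        have h1 := abs_le.1 (hw i)
        simp only [Pi.sub_apply, Pi.add_apply, hci, hx'i]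
        omega) (by
        have h1 := abs_le.1 (hw i)
        simp only [Pi.sub_apply, Pi.add_apply, hci, hx'i]
        omega)
      rw [sub_add_cancel] at a1 a2
      rw [mul_smul, a2, ← a1, inv_smul_smul]
    intro z
    have h1 := hF _ hcL _ hfix (z - c)
    simp only [sub_add_cancel] at h1
    rw [mul_smul, inv_smul_eq_iff] at h1
    exact h1
  -- all of them are equal on the flat
  have hall : ∀ R : ℕ, ∀ x : Fin k → ℤ, x i = 0 → (∀ i', |x i'| ≤ (R : ℤ)) →
      ∀ z, t x • h₁ z = t 0 • h₁ z := by
    intro R
    induction R with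
    | zero =>
      intro x _ hx z
      have : x = 0 := by
        funext i'
        have := hx i'
        simpa using this
      rw [this]
    | succ R ih =>
      intro x hxi hx z
      have h1 := hnb (fun i' => x i' - (x i').sign) x (by simp [hxi]) hxi (by
        intro i'
        have h2 : x i' - (x i').sign - x i' = -(x i').sign := by ring
        simp only [h2, abs_neg]
        rcases lt_trichotomy (x i') 0 with h | h | h
        · rw [Int.sign_eq_neg_one_of_neg h]
          simp
        · rw [h]
          simp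
        · rw [Int.sign_eq_one_of_pos h]
          simp) z
      have h2 := ih (fun i' => x i' - (x i').sign) (by simp [hxi]) (by
        intro i'
        have h3 := abs_le.1 (hx i')
        push_cast at h3
        rw [abs_le]
        rcases lt_trichotomy (x i') 0 with h | h | h
        · rw [Int.sign_eq_neg_one_of_neg h]
          omega
        · rw [h]
          simp
        · rw [Int.sign_eq_one_of_pos h]
          omega) z
      rw [h1, h2]
  refine ⟨t 0, fun z hz1 hz2 => ?_⟩
  set x : Fin k → ℤ := z - Pi.single i (z i) with hxdef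
  have hxi : x i = 0 := by
    rw [hxdef, Pi.sub_apply, Pi.single_eq_same, sub_self]
  have h1 := ht x hxi (Pi.single i (z i)) (by
    intro i' hi'
    rw [Pi.single_eq_of_ne hi']
    simp) (by
    rw [Pi.single_eq_same]
    exact hz1) (by
    rw [Pi.single_eq_same]
    exact hz2)
  have h2 : Pi.single i (z i) + x = z := by
    rw [hxdef]
    abel
  rw [h2] at h1
  have h3 := hall (Finset.univ.sup fun i' => (|x i'|).toNat) x hxi (by
    intro i'
    have h4 : (|x i'|).toNat ≤ Finset.univ.sup fun i' => (|x i'|).toNat :=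
      Finset.le_sup (f := fun i' => (|x i'|).toNat) (Finset.mem_univ i')
    have h5 : |x i'| ≤ ((|x i'|).toNat : ℤ) := Int.self_le_toNat _
    have h6 : ((|x i'|).toNat : ℤ) ≤ ((Finset.univ.sup fun i' => (|x i'|).toNat : ℕ) : ℤ) := by
      exact_mod_cast h4
    omega) z
  rw [← h3, h1]

end Pool.Agent.Run7.h744.QF
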