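import Pool.Agent.Run7.h230.QF.Stm2

/-!
# Project QF (helper230), phase 2, piece TYP
-/

set_option autoImplicit false

namespace Pool.Agent.Run7.h744.QF

open Pool.Agent.Run7.h230.QF
open Pool.Agent.H97R3.VR (IsMedian IsConvex Btw)
open Pool.Agent.TH97.VR (walls)
open Pointwise

variable {V : Type} {k : ℕ} {Γ : SimpleGraph V}

theorem fin_map {G : Type} [Group G] [MulAction G V] (hA : Act G Γ) (x y : V) :
    {g : G | g • x = y}.Finite := by
  by_cases h : ∃ g₀ : G, g₀ • x = y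
  · obtain ⟨g₀, hg₀⟩ := h
    have h1 : ((fun g : G => g₀⁻¹ * g) ⁻¹' {g : G | g • x = x}).Finite :=
      (hA.stab x).preimage (mul_right_injective g₀⁻¹).injOn
    refine h1.subset ?_
    intro g hg
    simp only [Set.mem_setOf_eq, Set.mem_preimage] at hg ⊢
    rw [mul_smul, hg, ← hg₀, inv_smul_smul]
  · refine Set.finite_empty.subset ?_
    intro g hg
    exact h ⟨g, hg⟩

theorem eqv_refl {G : Type} [Group G] [MulAction G V] (P : Set (Fin k → ℤ))
    (f : (Fin k → ℤ) → V) : Eqv G P f f := ⟨1, fun z _ => one_smul G _⟩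

theorem eqv_symm {G : Type} [Group G] [MulAction G V] {P : Set (Fin k → ℤ)}
    {f h : (Fin k → ℤ) → V} (H : Eqv G P f h) : Eqv G P h f := by
  obtain ⟨g, hg⟩ := H
  refine ⟨g⁻¹, fun z hz => ?_⟩
  rw [← hg z hz, inv_smul_smul]

theorem eqv_mono {G : Type} [Group G] [MulAction G V] {P Q : Set (Fin k → ℤ)} (hPQ : P ⊆ Q)
    {f h : (Fin k → ℤ) → V} (H : Eqv G Q f h) : Eqv G P f h := by
  obtain ⟨g, hg⟩ := H
  exact ⟨g, fun z hz => hg z (hPQ hz)⟩

theorem wd_mono (i : Fin k) (n : ℕ) {m m' : ℕ} (h : m ≤ m') : Wd i n m ⊆ Wd i n m' := by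
  intro z hz
  refine ⟨hz.1, ?_, hz.2.2⟩
  have := hz.2.1
  have h' : (m : ℤ) ≤ m' := by exact_mod_cast h
  omega

theorem wd_fin {G : Type} [Group G] [MulAction G V] (hA : Act G Γ) (i : Fin k) (n : ℕ)
    {f h : (Fin k → ℤ) → V} (H : ¬ Eqv G (Wi i n) f h) : ∃ m, ¬ Eqv G (Wd i n m) f h := by
  have h1 : ∀ g : G, ∃ z ∈ Wi i n, g • f z ≠ h z := by
    intro g
    by_contra hcon
    push Not at hcon
    exact H ⟨g, hcon⟩
  choose z hz1 hz2 using h1
  set F := (fin_map (G := G) hA (f 0) (h 0)).toFinset with hF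
  refine ⟨F.sup fun g => (-(z g) i).toNat, ?_⟩
  rintro ⟨g, hg⟩
  have h0 : (0 : Fin k → ℤ) ∈ Wd i n (F.sup fun g => (-(z g) i).toNat) := by
    refine ⟨fun i' _ => by simp, ?_, ?_⟩
    · simp
    · simp
  have hgF : g ∈ F := by
    rw [hF, Set.Finite.mem_toFinset]
    exact hg 0 h0
  have hle : (-(z g) i).toNat ≤ F.sup fun g => (-(z g) i).toNat :=
    Finset.le_sup (f := fun g => (-(z g) i).toNat) hgF
  refine hz2 g (hg (z g) ⟨(hz1 g).1, ?_, (hz1 g).2⟩)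
  have h2 : -(z g) i ≤ ((-(z g) i).toNat : ℤ) := Int.self_le_toNat _
  have h3 : ((-(z g) i).toNat : ℤ) ≤ ((F.sup fun g => (-(z g) i).toNat : ℕ) : ℤ) := by
    exact_mod_cast hle
  omega

theorem t_TYP : S_TYP := by
  classical
  intro V G _ _ Γ hA k L i n S hS
  set Q : Finset (((Fin k → ℤ) → V) × ((Fin k → ℤ) → V)) → Prop := fun U =>
    (∀ p ∈ U, HP L i p.1 p.2) ∧ ∀ p ∈ U, ∀ q ∈ U, p ≠ q → ¬ Eqv G (Wi i n) p.1 q.1 with hQ
  have hb : ∀ U, Q U → U.card ≤ S := by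
    intro U hU
    by_contra hcon
    push Not at hcon
    have h1 : ∀ pq : (((Fin k → ℤ) → V) × ((Fin k → ℤ) → V)) × (((Fin k → ℤ) → V) × ((Fin k → ℤ) → V)),
        ∃ m, pq.1 ∈ U → pq.2 ∈ U → pq.1 ≠ pq.2 → ¬ Eqv G (Wd i n m) pq.1.1 pq.2.1 := by
      intro pq
      by_cases h : pq.1 ∈ U ∧ pq.2 ∈ U ∧ pq.1 ≠ pq.2
      · obtain ⟨m, hm⟩ := wd_fin hA i n (hU.2 _ h.1 _ h.2.1 h.2.2)
        exact ⟨m, fun _ _ _ => hm⟩
      · exact ⟨0, fun a b c => absurd ⟨a, b, c⟩ h⟩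
    choose m hm using h1
    refine hS ((U ×ˢ U).sup m) ⟨U, hU.1, by omega, ?_⟩
    intro p hp q hq hpq hE
    have hle : m (p, q) ≤ (U ×ˢ U).sup m := Finset.le_sup (Finset.mk_mem_product hp hq)
    exact hm (p, q) hp hq hpq (eqv_mono (wd_mono i n hle) hE)
  have hex : ∃ U, Q U ∧ ∀ U', Q U' → U'.card ≤ U.card := by
    have hP : ∃ c, ∃ U, Q U ∧ U.card = c := ⟨0, ∅, ⟨by simp, by simp⟩, rfl⟩
    have hbdd : ∀ c, (∃ U, Q U ∧ U.card = c) → c ≤ S := by
      rintro c ⟨U, hU, rfl⟩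
      exact hb U hU
    obtain ⟨c₀, hc₀⟩ := hP
    have h1 := Nat.findGreatest_spec (P := fun c => ∃ U, Q U ∧ U.card = c) (hbdd c₀ hc₀) hc₀
    obtain ⟨U, hU, hUc⟩ := h1
    refine ⟨U, hU, fun U' hU' => ?_⟩
    rw [hUc]
    exact Nat.le_findGreatest (hb U' hU') ⟨U', hU', rfl⟩
  obtain ⟨U, hU, hmax⟩ := hex
  refine ⟨U.image Prod.fst, ?_, ?_⟩
  · intro τ hτ
    obtain ⟨p, hp, rfl⟩ := Finset.mem_image.1 hτ
    exact (hU.1 p hp).1
  · intro h₁ h₂ hh
    by_contra hcon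
    push Not at hcon
    have h1 : ∀ p ∈ U, ¬ Eqv G (Wi i n) p.1 h₁ := fun p hp =>
      hcon p.1 (Finset.mem_image_of_mem _ hp)
    have h2 : (h₁, h₂) ∉ U := fun hmem => h1 _ hmem (eqv_refl _ _)
    have h3 : Q (insert (h₁, h₂) U) := by
      refine ⟨?_, ?_⟩
      · intro p hp
        rcases Finset.mem_insert.1 hp with rfl | hp
        · exact hh
        · exact hU.1 p hp
      · intro p hp q hq hpq
        rcases Finset.mem_insert.1 hp with rfl | hp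
        · rcases Finset.mem_insert.1 hq with rfl | hq
          · exact absurd rfl hpq
          · exact fun hE => h1 q hq (eqv_symm hE)
        · rcases Finset.mem_insert.1 hq with rfl | hq
          · exact h1 p hp
          · exact hU.2 p hp q hq hpq
    have h4 := hmax _ h3
    rw [Finset.card_insert_of_notMem h2] at h4
    omega

end Pool.Agent.Run7.h744.QF
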